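import Pool.Agent.Lib.MP_b5021c_nt.IfaceE2
import Pool.Agent.Lib.MP_b5021c_nt.B.H71.I2c

/-!
# Board b5, stage 3, row E2_TP1 (helper76): the residues of a terminal pair exist
-/

namespace Pool.Agent.B5.H76

open scoped LaurentPolynomial
open AddMonoidAlgebra Pool.Agent.B5.H71

set_option linter.unusedSectionVars false

section Alg

variable {O : Type} [CommRing O] {L : Type} [AddCommGroup L]

theorem sfa_coeff_zero (b : L) (hb : b ≠ 0) (e : (RO O)ˣ) : (sfa b e : AO O L).coeff 0 = 1 := by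
  rw [sfa, coeff_sub, Finsupp.sub_apply, coeff_single, Finsupp.single_eq_of_ne (Ne.symm hb),
    sub_zero]
  exact coeff_one_zero

theorem sfa_ne [IsDomain O] (b : L) (hb : b ≠ 0) (e : (RO O)ˣ) : (sfa b e : AO O L) ≠ 0 := by
  intro h
  have h1 := sfa_coeff_zero b hb e
  rw [h] at h1
  exact zero_ne_one h1

theorem cl_sfa (k : L →+ ℤ) (S : L) (h : k S = 1) (eta : (RO O)ˣ) (b : L) (hb : k b = 0)
    (e : (RO O)ˣ) : cl k S h eta (sfa b e) = sfa (prj k S h b) e := by
  rw [sfa, map_sub, map_one, cl_single, hb, zpow_zero, Units.val_one, mul_one]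
  rfl

/-- Successive division by independent factors. -/
theorem prod_dvd [IsDomain O] [Module.Free ℤ L] [Module.Finite ℤ L] {ι : Type} [DecidableEq ι]
    (b : ι → L) (k : ι → L →+ ℤ) (e : ι → (RO O)ˣ) (F : AO O L) (s : Finset ι)
    (hd : ∀ i ∈ s, ∀ j ∈ s, k i (b j) = if i = j then 1 else 0)
    (hF : ∀ i ∈ s, ∀ h : k i (b i) = 1, cl (k i) (b i) h (e i) F = 0) :
    ∏ i ∈ s, sfa (b i) (e i) ∣ F := by
  induction s using Finset.induction_on with
  | empty => rw [Finset.prod_empty]; exact one_dvd _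
  | insert i s hi ih =>
    obtain ⟨F1, hF1⟩ := ih
      (fun a ha c hc => hd a (Finset.mem_insert_of_mem ha) c (Finset.mem_insert_of_mem hc))
      (fun a ha => hF a (Finset.mem_insert_of_mem ha))
    have hii : k i (b i) = 1 := by
      rw [hd i (Finset.mem_insert_self _ _) i (Finset.mem_insert_self _ _), if_pos rfl]
    have h0 := hF i (Finset.mem_insert_self _ _) hii
    rw [hF1, map_mul, map_prod] at h0
    have hne : ∏ j ∈ s, cl (k i) (b i) hii (e i) (sfa (b j) (e j)) ≠ 0 := by
      rw [Finset.prod_ne_zero_iff]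
      intro j hj
      have hij : i ≠ j := fun h => hi (h ▸ hj)
      have hkj : k i (b j) = 0 := by
        rw [hd i (Finset.mem_insert_self _ _) j (Finset.mem_insert_of_mem hj), if_neg hij]
      have hjj : k j (b j) = 1 := by
        rw [hd j (Finset.mem_insert_of_mem hj) j (Finset.mem_insert_of_mem hj), if_pos rfl]
      rw [cl_sfa _ _ _ _ _ hkj]
      apply sfa_ne
      intro h1
      have h2 := congrArg (fun a : Ker (k i) => (a : L)) h1
      simp only [prj_coe, hkj, zero_smul, sub_zero] at h2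
      rw [h2] at hjj
      simp at hjj
    have h1 : cl (k i) (b i) hii (e i) F1 = 0 := (mul_eq_zero.mp h0).resolve_left hne
    have h2 : sfa (b i) (e i) ∣ F1 := by
      have := cl_dvd (k i) (b i) hii (e i) F1
      rwa [h1, map_zero, sub_zero] at this
    rw [Finset.prod_insert hi, hF1, mul_comm (sfa (b i) (e i))]
    exact mul_dvd_mul_left _ h2

end Alg

section Slices

variable {O : Type} [CommRing O] [IsDomain O] [IsPrincipalIdealRing O] [Coef O] {L : Type}
  [AddCommGroup L] [Module.Free ℤ L] [Module.Finite ℤ L]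

theorem sl_one_sub (u : AddChar L Circle) (lam : L →+ ℤ) (b : L) (q : ℂ) :
    sl u lam (1 - single b q) =
      1 - Polynomial.C (q * (u b : ℂ)) * Polynomial.X ^ (lam b).toNat := by
  have h1 : sl u lam (1 - single b q) + sl u lam (single b q) = sl u lam (single 0 1) := by
    rw [← sl_add, sub_add_cancel]; rfl
  rw [sl_cst, sl_single, ← Polynomial.C_mul_X_pow_eq_monomial] at h1
  rw [eq_sub_of_add_eq h1, Polynomial.C_1]

theorem spec_sfa (z : Circle) (b : L) (e : (RO O)ˣ) :
    spec z (sfa b e : AO O L) = 1 - single b (evR z ((e⁻¹ : (RO O)ˣ) : RO O)) := by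
  rw [sfa, map_sub, map_one, spec_single]

theorem sl_den (hM : SlMulS) (z : Circle) (u : AddChar L Circle) (lam : L →+ ℤ) (c : RO O)
    {n : ℕ} (b : Fin n → L) (e : Fin n → (RO O)ˣ) (hb : ∀ i, 0 < lam (b i)) :
    sl u lam (spec z (den c b e)) = Polynomial.C (evR z c) *
      ∏ i, (1 - Polynomial.C (evR z (((e i)⁻¹ : (RO O)ˣ) : RO O) * (u (b i) : ℂ)) *
        Polynomial.X ^ (lam (b i)).toNat) := by
  have hNn : ∀ i, Nn lam (1 - single (b i) (evR z (((e i)⁻¹ : (RO O)ˣ) : RO O)) : CA L) := by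
    intro i a ha
    by_cases h0 : a = 0
    · rw [h0, map_zero]
    · by_cases h1 : a = b i
      · rw [h1]; exact (hb i).le
      · exfalso
        rw [Finsupp.mem_support_iff, coeff_sub, Finsupp.sub_apply, coeff_single,
          Finsupp.single_eq_of_ne h1, sub_zero, one_def, coeff_single,
          Finsupp.single_eq_of_ne h0] at ha
        exact ha rfl
  have hprod := sl_prod hM u lam Finset.univ
    (fun i => (1 - single (b i) (evR z (((e i)⁻¹ : (RO O)ˣ) : RO O)) : CA L)) (fun i _ => hNn i)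
  have h1 : spec z (den c b e) = single 0 (evR z c) *
      ∏ i, (1 - single (b i) (evR z (((e i)⁻¹ : (RO O)ˣ) : RO O)) : CA L) := by
    rw [den, map_mul, map_prod, cst, spec_single]
    congr 1
    apply Finset.prod_congr rfl
    intro i _
    exact spec_sfa z (b i) (e i)
  have h2 := hM L u lam (single 0 (evR z c))
    (∏ i, (1 - single (b i) (evR z (((e i)⁻¹ : (RO O)ˣ) : RO O)) : CA L)) (by
      intro a ha
      rw [coeff_single] at ha
      have := Finsupp.support_single_subset ha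
      rw [Finset.mem_singleton] at this
      rw [this, map_zero]) hprod.2
  rw [h1, h2.1, sl_cst, hprod.1]
  congr 1
  apply Finset.prod_congr rfl
  intro i _
  exact sl_one_sub u lam (b i) _

/-- `B` vanishes where two of the factors vanish. -/
theorem vanish (hA5 : A5S) (hE : EvRS) (hM : SlMulS) {r : ℕ} {lam : L →+ ℤ} {B : AO O L}
    {c : RO O} {n : ℕ} {b : Fin n → L} {f : Fin n → (L →+ ℤ)} {e : Fin n → (RO O)ˣ}
    (tp : TPair r lam B c n b f e) (z : Circle) (hz : evR z c ≠ 0) (v : AddChar L Circle)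
    (i j : Fin n) (hij : i ≠ j) (hi : (v (b i) : ℂ) = evR z (e i : RO O))
    (hj : (v (b j) : ℂ) = evR z (e j : RO O)) : ev z v B = 0 := by
  classical
  set PB := sl v lam (spec z B) with hPB
  set PH := sl v lam (spec z (den c b e)) with hPH
  set x : Fin n → ℂ := fun k => evR z (((e k)⁻¹ : (RO O)ˣ) : RO O) * (v (b k) : ℂ) with hx
  set N : Fin n → ℕ := fun k => (lam (b k)).toNat with hN
  have hPHe : PH = Polynomial.C (evR z c) *
      ∏ k, (1 - Polynomial.C (x k) * Polynomial.X ^ (N k)) := sl_den hM z v lam c b e tp.pb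
  have hx1 : ∀ k, ‖x k‖ = 1 := by
    intro k
    rw [hx]
    simp only
    rw [norm_mul, (hE O).2.1 z _ ((e k)⁻¹).isUnit, Circle.norm_coe, mul_one]
  have hxe : ∀ k, (v (b k) : ℂ) = evR z (e k : RO O) → x k = 1 := by
    intro k hk
    change evR z (((e k)⁻¹ : (RO O)ˣ) : RO O) * (v (b k) : ℂ) = 1
    rw [hk, ← map_mul, Units.inv_mul, map_one]
  have hNp : ∀ k, N k ≠ 0 := by
    intro k h
    have h1 := tp.pb k
    have h2 : (lam (b k)).toNat = 0 := h
    omega
  have hev : ∀ s : ℂ, PH.eval s = evR z c * ∏ k, (1 - x k * s ^ (N k)) := by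
    intro s
    rw [hPHe, Polynomial.eval_mul, Polynomial.eval_C, Polynomial.eval_prod]
    congr 1
    apply Finset.prod_congr rfl
    intro k _
    simp
  have hH0 : ∀ s : ℂ, ‖s‖ < 1 → PH.eval s ≠ 0 := by
    intro s hs
    rw [hev]
    refine mul_ne_zero hz ?_
    rw [Finset.prod_ne_zero_iff]
    intro k _ h1
    have h2 : x k * s ^ (N k) = 1 := (sub_eq_zero.mp h1).symm
    have h3 := congrArg norm h2
    rw [norm_mul, hx1, one_mul, norm_pow, norm_one] at h3
    have h4 := pow_lt_one₀ (norm_nonneg s) hs (hNp k)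
    linarith
  have hpos := tp.pos z hz v
  have hle : ∀ s : ℂ, ‖s‖ < 1 → ‖(-PB).eval s‖ ≤ ‖(PB + PH).eval s‖ := by
    intro s hs
    have h1 := hpos s hs
    rw [← hPB, ← hPH] at h1
    rw [Polynomial.eval_neg, norm_neg, Polynomial.eval_add]
    have h2 : ‖PB.eval s‖ ^ 2 ≤ ‖PB.eval s + PH.eval s‖ ^ 2 := by
      rw [← Complex.normSq_eq_norm_sq, ← Complex.normSq_eq_norm_sq, Complex.normSq_add]
      have := Complex.normSq_nonneg (PH.eval s)
      linarith
    exact (pow_le_pow_iff_left₀ (norm_nonneg _) (norm_nonneg _) two_ne_zero).mp h2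
  have hA := hA5 (PB + PH) (-PB) 1 norm_one hle (by
    intro s hs
    rw [Polynomial.eval_add, Polynomial.eval_neg, one_mul]
    have := hH0 s hs
    intro h1
    apply this
    linear_combination h1)
  set K : ℝ := 2 * (‖(PB + PH).coeff 0‖ / ‖(PB + PH).coeff 0 + 1 * (-PB).coeff 0‖) + 2 with hK
  have hK0 : 0 ≤ K := by rw [hK]; positivity
  set K2 : ℝ := K * (‖evR z c‖ * (N i * (N j * 2 ^ ((Finset.univ.erase i).erase j).card))) with hK2
  have hest : ∀ s : ℝ, 0 < s → s < 1 → ‖PB.eval (s : ℂ)‖ ≤ K2 * (1 - s) := by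
    intro s hs0 hs1
    have hns : ‖(s : ℂ)‖ = s := by
      rw [Complex.norm_real, Real.norm_eq_abs, abs_of_pos hs0]
    have h1 := hA (s : ℂ) (by rw [hns]; exact hs1)
    have h2 := hle (s : ℂ) (by rw [hns]; exact hs1)
    rw [Polynomial.eval_neg, norm_neg] at h2
    have h3 : (PB + PH).eval (s : ℂ) + 1 * (-PB).eval (s : ℂ) = PH.eval (s : ℂ) := by
      rw [Polynomial.eval_add, Polynomial.eval_neg]; ring
    rw [h3, hns, hev, norm_mul, norm_prod,
      ← Finset.mul_prod_erase Finset.univ _ (Finset.mem_univ i),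
      ← Finset.mul_prod_erase (Finset.univ.erase i) _
        (Finset.mem_erase.mpr ⟨hij.symm, Finset.mem_univ j⟩)] at h1
    have hk : ∀ k, x k = 1 → ‖1 - x k * (s : ℂ) ^ (N k)‖ ≤ N k * (1 - s) := by
      intro k hk
      rw [hk, one_mul]
      have h3 : (1 : ℂ) - (s : ℂ) ^ (N k) = ((1 - s ^ (N k) : ℝ) : ℂ) := by push_cast; ring
      rw [h3, Complex.norm_real, Real.norm_eq_abs, abs_of_nonneg]
      · exact one_sub_pow_le s hs0 hs1 (N k)
      · have := pow_le_one₀ (n := N k) hs0.le hs1.le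
        linarith
    have h4 := hk i (hxe i hi)
    have h5 := hk j (hxe j hj)
    have h6 : ∏ k ∈ (Finset.univ.erase i).erase j, ‖1 - x k * (s : ℂ) ^ (N k)‖ ≤
        2 ^ ((Finset.univ.erase i).erase j).card := by
      rw [← Finset.prod_const]
      apply Finset.prod_le_prod
      · intro k _; exact norm_nonneg _
      · intro k _
        have h7 : ‖1 - x k * (s : ℂ) ^ (N k)‖ ≤ ‖(1 : ℂ)‖ + ‖x k * (s : ℂ) ^ (N k)‖ :=
          norm_sub_le _ _
        rw [norm_one, norm_mul, hx1, one_mul, norm_pow, hns] at h7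
        have h8 := pow_le_one₀ (n := N k) hs0.le hs1.le
        linarith
    have h7 : (0 : ℝ) ≤ ∏ k ∈ (Finset.univ.erase i).erase j, ‖1 - x k * (s : ℂ) ^ (N k)‖ :=
      Finset.prod_nonneg fun _ _ => norm_nonneg _
    have h8 : ‖1 - x i * (s : ℂ) ^ (N i)‖ * (‖1 - x j * (s : ℂ) ^ (N j)‖ *
        ∏ k ∈ (Finset.univ.erase i).erase j, ‖1 - x k * (s : ℂ) ^ (N k)‖) ≤
        (N i * (1 - s)) * ((N j * (1 - s)) * 2 ^ ((Finset.univ.erase i).erase j).card) := by
      apply mul_le_mul h4 _ (by positivity) ((norm_nonneg _).trans h4)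
      exact mul_le_mul h5 h6 h7 ((norm_nonneg _).trans h5)
    have h9 : ‖PB.eval (s : ℂ)‖ * (1 - s) ≤ (K2 * (1 - s)) * (1 - s) := by
      calc ‖PB.eval (s : ℂ)‖ * (1 - s) ≤ ‖(PB + PH).eval (s : ℂ)‖ * (1 - s) :=
            mul_le_mul_of_nonneg_right h2 (by linarith)
        _ ≤ _ := h1
        _ ≤ K * (‖evR z c‖ * ((N i * (1 - s)) * ((N j * (1 - s)) *
              2 ^ ((Finset.univ.erase i).erase j).card))) := by
            apply mul_le_mul_of_nonneg_left _ hK0
            exact mul_le_mul_of_nonneg_left h8 (norm_nonneg _)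
        _ = _ := by rw [hK2]; ring
    exact le_of_mul_le_mul_right h9 (by linarith)
  have hlim := lim_le (fun s : ℝ => ‖PB.eval (s : ℂ)‖) (fun s : ℝ => K2 * (1 - s))
    ((PB.continuous.comp Complex.continuous_ofReal).norm) (by fun_prop) hest
  simp only [Complex.ofReal_one, sub_self, mul_zero] at hlim
  have h1 : PB.eval 1 = ev z v B := by
    rw [hPB, sl_eval_one]; rfl
  rw [h1] at hlim
  exact norm_le_zero_iff.mp hlim

end Slices

/-- Row E2_TP1. -/
theorem e2_tp1 (hA5 : A5S) (hE : EvRS) (hZ : ZfinS) (hM : SlMulS) (hD : DensS) : Tp1S := by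
  intro O _ _ _ _ L _ _ _ r lam B c n b f e tp
  classical
  have hone : ∀ i, f i (b i) = 1 := by
    intro i
    rw [tp.dual i i, if_pos rfl]
  have key : ∀ i, ∃ q : AO O (Ker (f i)), cl (f i) (b i) (hone i) (e i) B =
      q * ∏ j ∈ Finset.univ.erase i, cl (f i) (b i) (hone i) (e i) (sfa (b j) (e j)) := by
    intro i
    set b' : Fin n → Ker (f i) := fun j => prj (f i) (b i) (hone i) (b j) with hb'
    set k' : Fin n → (Ker (f i) →+ ℤ) := fun j => (f j).comp (incl (Ker (f i))) with hk'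
    have hbc : ∀ j, j ≠ i → ((b' j : Ker (f i)) : L) = b j := by
      intro j hj
      rw [hb']
      simp only
      rw [prj_coe, tp.dual i j, if_neg (Ne.symm hj), zero_smul, sub_zero]
    have hkb : ∀ l, ∀ j, j ≠ i → k' l (b' j) = if l = j then 1 else 0 := by
      intro l j hj
      change f l ((b' j : Ker (f i)) : L) = _
      rw [hbc j hj, tp.dual l j]
    have hzero : ∀ j ∈ Finset.univ.erase i, ∀ h : k' j (b' j) = 1,
        cl (k' j) (b' j) h (e j) (cl (f i) (b i) (hone i) (e i) B) = 0 := by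
      intro j hj h
      have hji : j ≠ i := Finset.ne_of_mem_erase hj
      apply (hD O (Ker (k' j))).2
      refine (hZ O c tp.c0).subset ?_
      intro z hz
      by_contra hcon
      apply hz
      intro u
      have hui : ‖evR z (e i : RO O)‖ = 1 := (hE O).2.1 z _ (e i).isUnit
      have huj : ‖evR z (e j : RO O)‖ = 1 := (hE O).2.1 z _ (e j).isUnit
      set ζi : Circle := ⟨evR z (e i : RO O), mem_sphere_zero_iff_norm.mpr hui⟩ with hζi
      set ζj : Circle := ⟨evR z (e j : RO O), mem_sphere_zero_iff_norm.mpr huj⟩ with hζj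
      have hζi' : (ζi : ℂ) = evR z (e i : RO O) := rfl
      have hζj' : (ζj : ℂ) = evR z (e j : RO O) := rfl
      rw [← ev_extc (k' j) (b' j) h u ζj z (e j) hζj',
        ← ev_extc (f i) (b i) (hone i) (extc (k' j) (b' j) h u ζj) ζi z (e i) hζi']
      apply vanish hA5 hE hM tp z hcon _ i j (Ne.symm hji)
      · rw [extc_self]
      · rw [← hbc j hji, extc_ker, extc_self]
    have hdv := prod_dvd b' k' e (cl (f i) (b i) (hone i) (e i) B) (Finset.univ.erase i)
      (fun l _ j hj => hkb l j (Finset.ne_of_mem_erase hj)) hzero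
    obtain ⟨q, hq⟩ := hdv
    refine ⟨q, ?_⟩
    rw [hq, mul_comm]
    congr 1
    apply Finset.prod_congr rfl
    intro j hj
    have hji : j ≠ i := Finset.ne_of_mem_erase hj
    rw [cl_sfa _ _ _ _ _ (by rw [tp.dual i j, if_neg (Ne.symm hji)])]
  choose q hq using key
  refine ⟨q, fun i h => hq i, ?_⟩
  intro i hi
  apply tp.cop i (hone i)
  rw [hq i, hi, zero_mul]

end Pool.Agent.B5.H76
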