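import Pool.Agent.Lib.MP_b5021c_nt.B.H76.E2Tp1

/-!
# Board b5, stage 3, row E2_TP2 (helper76): reciprocity of the residues
-/

namespace Pool.Agent.B5.H76

open scoped LaurentPolynomial
open AddMonoidAlgebra Pool.Agent.B5.H71

set_option linter.unusedSectionVars false

/-- Row E2_TP2. -/
theorem e2_tp2 (hE : EvRS) (hZ : ZfinS) : Tp2S := by
  intro O _ _ _ _ L _ _ _ r lam B c n b f e q tp hres i
  classical
  have hone : f i (b i) = 1 := by rw [tp.dual i i, if_pos rfl]
  have hb0 : b i ≠ 0 := by
    intro h1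
    rw [h1, map_zero] at hone
    exact zero_ne_one hone
  set U : AO O (Ker (f i)) :=
    ∏ j ∈ Finset.univ.erase i, cl (f i) (b i) hone (e i) (sfa (b j) (e j)) with hU
  have hX : cl (f i) (b i) hone (e i) B = q i * U := hres i hone
  set W : AO O L := ∏ j ∈ Finset.univ.erase i, sfa (b j) (e j) with hW
  have hWU : cl (f i) (b i) hone (e i) W = U := by rw [hW, map_prod]
  set Pf : AO O L := sfa (b i) (e i) with hPf
  have hden : den c b e = Pf * (cst c * W) := by
    rw [den, ← Finset.mul_prod_erase Finset.univ _ (Finset.mem_univ i)]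
    ring
  have hU0 : U ≠ 0 := by
    rw [hU, Finset.prod_ne_zero_iff]
    intro j hj
    have hji : j ≠ i := Finset.ne_of_mem_erase hj
    have hkj : f i (b j) = 0 := by rw [tp.dual i j, if_neg (Ne.symm hji)]
    have hjj : f j (b j) = 1 := by rw [tp.dual j j, if_pos rfl]
    rw [cl_sfa _ _ _ _ _ hkj]
    apply sfa_ne
    intro h1
    have h2 := congrArg (fun a : Ker (f i) => (a : L)) h1
    simp only [prj_coe, hkj, zero_smul, sub_zero] at h2
    rw [h2] at hjj
    simp at hjj
  have hcs' : ∀ d : RO O, sharp (cst d : AO O (Ker (f i))) = cst (rsh d) := by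
    intro d; rw [cst, sharp_single, neg_zero]; rfl
  have hstar := tp.un
  rw [hden] at hstar
  have hPs : sharp Pf = -(single (-(b i)) ((e i : (RO O)ˣ) : RO O)) * Pf := by
    have h9 : (single (-(b i)) ((e i : (RO O)ˣ) : RO O) : AO O L) *
        single (b i) (((e i)⁻¹ : (RO O)ˣ) : RO O) = 1 := by
      rw [single_mul_single, neg_add_cancel, Units.mul_inv]
      rfl
    rw [hPf, sfa, map_sub, map_one, sharp_single, rsh_unit hE hZ, inv_inv]
    linear_combination (-1 : AO O L) * h9
  have hP0 : Pf ≠ 0 := sfa_ne _ hb0 _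
  have h5 : Pf * (-(single (-(b i)) ((e i : (RO O)ˣ) : RO O)) * B * sharp (cst c * W) +
        sharp B * (cst c * W)) =
      Pf * ((r : AO O L) * ((cst c * W) *
        (-(single (-(b i)) ((e i : (RO O)ˣ) : RO O)) * Pf) * sharp (cst c * W))) := by
    rw [map_mul, hPs] at hstar
    linear_combination hstar
  have h6 := mul_left_cancel₀ hP0 h5
  have h7 := congrArg (cl (f i) (b i) hone (e i)) h6
  have hk0 : cl (f i) (b i) hone (e i) Pf = 0 := cl_factor (f i) (b i) hone (e i)
  have hk1 : cl (f i) (b i) hone (e i) (single (-(b i)) ((e i : (RO O)ˣ) : RO O)) = 1 := by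
    rw [cl_single, map_neg, map_neg, prj_self, hone, neg_zero, zpow_neg, zpow_one, Units.mul_inv]
    rfl
  simp only [map_add, map_mul, map_neg, hk1, hk0, cl_sharp hE hZ, cl_cst, hX, hWU, hcs'] at h7
  have hUs : sharp U ≠ 0 := by
    intro h8
    apply hU0
    apply AddMonoidAlgebra.ext
    apply Finsupp.ext
    intro a
    have h9 := sharp_coeff' U (-a)
    rw [h8, neg_neg] at h9
    by_contra h10
    exact rsh_ne hE hZ _ h10 h9.symm
  have h8 : (U * sharp U) * (q i * cst (rsh c)) = (U * sharp U) * (sharp (q i) * cst c) := by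
    linear_combination (-1 : AO O (Ker (f i))) * h7
  exact mul_left_cancel₀ (mul_ne_zero hU0 hUs) h8

end Pool.Agent.B5.H76
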