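import Pool.Agent.Lib.MP_b5021c_nt.E1.H80.Iface
import Pool.Agent.Lib.MP_b5021c_nt.E1.Snt
import Pool.Agent.Lib.MP_b5021c_nt.B.H07.Zfi
import Pool.Agent.Lib.MP_b5021c_nt.B.H71.I2c

/-!
# Board b5, stage 3, row E1R_CF0 (helper76): the constant coefficient of a non-negative element
-/

namespace Pool.Agent.B5.H76

open Submodule Module Pool.Agent.B5.Nr Pool.Agent.B5.E1

section

variable {V : Type} [AddCommGroup V] [Module ℚ V]

/-- The trigonometric polynomial at `z`. -/
noncomputable def cz0 (c : V →₀ RO ℤ) (z : Circle) : V →₀ ℂ :=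
  c.mapRange (evR z) (map_zero _)

theorem cz0_apply (c : V →₀ RO ℤ) (z : Circle) (v : V) : cz0 c z v = evR z (c v) :=
  Finsupp.mapRange_apply

theorem cz0_val (c : V →₀ RO ℤ) (z : Circle) (χ : AddChar V Circle) :
    val (cz0 c z) χ = vz c z χ :=
  Finsupp.sum_mapRange_index (fun _ => zero_mul _)

theorem cz0_herm {c : V →₀ RO ℤ} (hc : NP c) (z : Circle) : Herm (cz0 c z) := by
  intro v
  rw [cz0_apply, cz0_apply, hc.1 v, H36.evR_rsh]

end

/-- Row E1R_CF0. -/
theorem e1r_cf0 : Cf0S := by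
  intro V _ _ c hc
  classical
  have hT : ∀ (z : Circle) (χ : AddChar V Circle), 0 ≤ (val (cz0 c z) χ).re := by
    intro z χ
    rw [cz0_val]
    exact hc.2 z χ
  refine ⟨?_, ?_⟩
  · intro z
    have h1 := avg_sub (hT z) (⊥ : Submodule ℚ V) 0
    have h2 : ((cz0 c z).filter fun v => v ∈ (⊥ : Submodule ℚ V)) =
        Finsupp.single 0 (cz0 c z 0) := by
      ext1 v
      rw [Finsupp.filter_apply, Finsupp.single_apply]
      by_cases hv : v = 0
      · rw [if_pos ((Submodule.mem_bot ℚ).mpr hv), if_pos hv.symm, hv]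
      · rw [if_neg (fun h => hv ((Submodule.mem_bot ℚ).mp h)), if_neg (fun h => hv h.symm)]
    have h3 : ((cz0 c z).filter fun v => v ∈ (⊥ : Submodule ℚ V)) =
        @Finsupp.filter V ℂ _ (fun v => v ∈ (⊥ : Submodule ℚ V))
          (fun a => Classical.propDecidable _) (cz0 c z) := by
      ext1 v
      rw [Finsupp.filter_apply]
    rw [← h3, h2] at h1
    unfold val at h1
    rw [Finsupp.sum_single_index (zero_mul _)] at h1
    simpa [cz0_apply] using h1
  · intro h0
    by_contra hne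
    obtain ⟨v, hv⟩ : ∃ v, c v ≠ 0 := by
      by_contra hcon
      push Not at hcon
      exact hne (Finsupp.ext hcon)
    have hv0 : v ≠ 0 := fun h => hv (by rw [h, h0])
    have hfin : (Es c).Finite := c.support.finite_toSet.subset (fun a ha => by
      rw [Finset.mem_coe, Finsupp.mem_support_iff]
      exact ha.2)
    have hsym : ∀ a ∈ Es c, -a ∈ Es c := by
      rintro a ⟨ha0, ha⟩
      refine ⟨neg_ne_zero.mpr ha0, fun h => ?_⟩
      apply ha
      have h1 := hc.1 (-a)
      rw [neg_neg, h, map_zero] at h1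
      exact h1
    have hpos : 1 ≤ finrank ℚ (span ℚ (Es c)) := by
      have : FiniteDimensional ℚ (span ℚ (Es c)) := FiniteDimensional.span_of_finite ℚ hfin
      rw [Nat.one_le_iff_ne_zero]
      intro h
      have h2 : span ℚ (Es c) = ⊥ := Submodule.finrank_eq_zero.mp h
      have h3 : v ∈ span ℚ (Es c) := subset_span ⟨hv0, hv⟩
      rw [h2] at h3
      exact hv0 ((Submodule.mem_bot ℚ).mp h3)
    obtain ⟨β, hβ, hF⟩ := flags _ hfin hsym rfl hpos
    have hz : ∀ z : Circle, evR z (c (β 0)) = 0 := by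
      intro z
      have h1 := hF (cz0 c z) 0 (cz0_herm hc z) (by
        intro u hu
        rw [Finsupp.mem_support_iff, cz0_apply] at hu
        by_cases hu0 : u = 0
        · exact Or.inr hu0
        · exact Or.inl ⟨hu0, fun h => hu (by rw [h, map_zero])⟩) (hT z)
      rw [cz0_apply, h0, map_zero, Complex.zero_re, zero_add] at h1
      have h2 : ‖cz0 c z (β 0)‖ ≤ ∑ i, ‖cz0 c z (β i)‖ :=
        Finset.single_le_sum (f := fun i => ‖cz0 c z (β i)‖) (fun _ _ => norm_nonneg _)
          (Finset.mem_univ 0)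
      have h3 : ‖cz0 c z (β 0)‖ ≤ 0 := h2.trans h1
      rw [← cz0_apply]
      exact norm_le_zero_iff.mp h3
    exact (hβ 0).2 (H71.evR_zero H07.zfi _ hz)

end Pool.Agent.B5.H76
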