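import Pool.Agent.Lib.MP_b5021c_nt.E1.H80.Iface

/-!
# Board b5, stage 3, row E1R_VFE (helper76): coordinate functionals of unimodular sets
-/

namespace Pool.Agent.B5.H76

open Submodule Module Pool.Agent.B5.Nr

/-- The coordinate functional of a member of a maximal independent subset. -/
theorem vf_of_max {V : Type} [AddCommGroup V] [Module ℚ V] {E : Set V} (hE : UM E) {B : Set V}
    (hBE : B ⊆ E) (hB : LinearIndepOn ℚ id B) (hsp : E ⊆ span ℚ B) {β : V} (hβ : β ∈ B) :
    ∃ l : Dual ℚ V, Vf E β l ∧ ∀ b ∈ B, b ≠ β → l b = 0 := by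
  classical
  have hmem : ∀ b ∈ B, b ∈ hB.extend (Set.subset_univ B) := fun b hb =>
    hB.subset_extend (Set.subset_univ B) hb
  have h1 : ∀ b (hb : b ∈ B), (Basis.extend hB) ⟨b, hmem b hb⟩ = b := fun b hb =>
    Basis.extend_apply_self hB _
  set l : Dual ℚ V := (Basis.extend hB).coord ⟨β, hmem β hβ⟩ with hl
  have hlβ : l β = 1 := by
    have h2 : l ((Basis.extend hB) ⟨β, hmem β hβ⟩) = 1 := by
      rw [hl, Basis.coord_apply, Basis.repr_self, Finsupp.single_eq_same]
    rwa [h1 β hβ] at h2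
  have hlb : ∀ b ∈ B, b ≠ β → l b = 0 := by
    intro b hb hne
    have h2 : l ((Basis.extend hB) ⟨b, hmem b hb⟩) = 0 := by
      rw [hl, Basis.coord_apply, Basis.repr_self, Finsupp.single_eq_of_ne]
      intro h3
      exact hne (congrArg Subtype.val h3).symm
    rwa [h1 b hb] at h2
  exact ⟨l, ⟨hlβ, fun v hv => hE B hBE hB l β hβ hlβ hlb v hv (hsp hv)⟩, hlb⟩

/-- Row E1R_VFE. -/
theorem e1r_vfe : VfeS := by
  intro V _ _ E hE
  refine ⟨?_, ?_⟩
  · intro β hβ h0
    have hs : LinearIndepOn ℚ id ({β} : Set V) := LinearIndepOn.singleton h0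
    have hst : ({β} : Set V) ⊆ E := Set.singleton_subset_iff.mpr hβ
    obtain ⟨l, hl, -⟩ := vf_of_max hE (hs.extend_subset hst) (hs.linearIndepOn_extend hst)
      (by simpa using hs.subset_span_extend hst) (hs.subset_extend hst (Set.mem_singleton β))
    exact ⟨l, hl⟩
  · intro β hβ γ hγ hs hne
    have hst : ({β, γ} : Set V) ⊆ E := by
      rintro x (rfl | rfl)
      · exact hβ
      · exact hγ
    have hβB : β ∈ hs.extend hst := hs.subset_extend hst (Set.mem_insert _ _)
    have hγB : γ ∈ hs.extend hst := hs.subset_extend hst (Set.mem_insert_of_mem _ rfl)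
    obtain ⟨l₁, h1, h1'⟩ := vf_of_max hE (hs.extend_subset hst) (hs.linearIndepOn_extend hst)
      (by simpa using hs.subset_span_extend hst) hβB
    obtain ⟨l₂, h2, h2'⟩ := vf_of_max hE (hs.extend_subset hst) (hs.linearIndepOn_extend hst)
      (by simpa using hs.subset_span_extend hst) hγB
    exact ⟨l₁, l₂, h1, h2, h1' γ hγB hne.symm, h2' β hβB hne⟩

end Pool.Agent.B5.H76
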